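import Pool.Agent.H92.BF.Targets
import Pool.Agent.H78.LV.Ge

/-!
# MP_70ba79_ag: module LO of the board `bin_modules`
-/

set_option autoImplicit false

namespace Pool.Agent.H96.BF

open MvPolynomial SC Pool.Agent.H27.LV Pool.Agent.H92.BF Pool.Agent.H27.LV.Ge

variable {k K : Type} [Field k] [Field K] [Algebra k K] (v : DV k K)

lemma ge_nonneg {x : K} (h : ge v 0 x) : 0 ≤ v.ord x := by
  rcases h with h | h
  · rw [h, v.ord_zero]
  · exact h

lemma ge_cast (n : ℕ) : ge v 0 (n : K) := by
  have := ge_algebraMap v (n : k)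
  rwa [map_natCast] at this

lemma ge_mul_const {t : ℤ} {x : K} (c : k) (hx : ge v t x) : ge v t (algebraMap k K c * x) := by
  have := ge_mul v (ge_algebraMap v c) hx
  rwa [zero_add] at this

lemma ge_sub' {t : ℤ} {x y : K} (hx : ge v t x) (hy : ge v t y) : ge v t (x - y) := by
  rw [sub_eq_add_neg]
  exact ge_add v hx (ge_neg v hy)

lemma ge_pow' {t : ℤ} {x : K} (hx : ge v t x) (n : ℕ) : ge v (n * t) (x ^ n) := by
  induction n with
  | zero =>
    right
    rw [pow_zero]
    have := v.ord_algebraMap (1 : k)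
    rw [map_one] at this
    rw [this]
    simp
  | succ n ih =>
    rw [pow_succ]
    have := ge_mul v ih hx
    refine ge_mono v (le_of_eq ?_) this
    push_cast
    ring

lemma ge_of_cancel {t : ℤ} {x : K} (c : k) (hc : c ≠ 0) (h : ge v t (algebraMap k K c * x)) :
    ge v t x := by
  have h1 := ge_mul_const v c⁻¹ h
  rwa [← mul_assoc, ← map_mul, inv_mul_cancel₀ hc, map_one, one_mul] at h1

/-- value of a form of degree `e` at a point with coordinates in `ge v t` -/
lemma ge_aeval (t : ℤ) (e : ℕ) (x : Fin 2 → K) (P : MvPolynomial (Fin 2) k)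
    (hP : P.IsHomogeneous e) (hx : ∀ i, ge v t (x i)) : ge v (e * t) (aeval x P) := by
  rw [aeval_def, eval₂_eq']
  refine ge_sum v _ _ fun f hf => ?_
  have hdeg : f 0 + f 1 = e := by
    have h1 := hP (mem_support_iff.mp hf)
    rw [Finsupp.weight_apply, Finsupp.sum_fintype] at h1
    · simpa [Fin.sum_univ_two] using h1
    · simp
  rw [Fin.prod_univ_two]
  have h2 := ge_mul v (ge_pow' v (hx 0) (f 0)) (ge_pow' v (hx 1) (f 1))
  have h3 := ge_mul_const v (coeff f P) h2
  refine ge_mono v (le_of_eq ?_) h3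
  rw [← hdeg]
  push_cast
  ring

lemma ge_aeval0 (x : Fin 2 → K) (P : MvPolynomial (Fin 2) k)
    (hx : ∀ i, ge v 0 (x i)) : ge v 0 (aeval x P) := by
  rw [aeval_def, eval₂_eq']
  refine ge_sum v _ _ fun f hf => ?_
  rw [Fin.prod_univ_two]
  have h2 := ge_mul v (ge_pow' v (hx 0) (f 0)) (ge_pow' v (hx 1) (f 1))
  have h3 := ge_mul_const v (coeff f P) h2
  refine ge_mono v (le_of_eq ?_) h3
  ring

lemma ge_RR (t : ℤ) (m d : ℕ) (α γ : MvPolynomial (Fin 2) k) (δ : Derivation k K K)
    (x : Fin 2 → K) (h1 : ge v t (aeval x α * δ (wr δ x))) (h2 : ge v t (aeval x α * wr δ x))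
    (h3 : ge v t (δ (aeval x α) * wr δ x)) (h4 : ge v t (aeval x γ * wr δ x ^ 2)) :
    ge v t (RR m d α γ δ x) := by
  have e : RR m d α γ δ x = algebraMap k K (d : k) * (aeval x α * δ (wr δ x)) -
      algebraMap k K (d : k) * (aeval x α * wr δ x) +
      algebraMap k K (2 * ((m : k) - 1)) * (δ (aeval x α) * wr δ x) -
      algebraMap k K (d : k) * (aeval x γ * wr δ x ^ 2) := by
    unfold RR
    simp only [map_mul, map_sub, map_natCast, map_one, map_ofNat]
    ring
  rw [e]
  exact ge_sub' v (ge_add v (ge_sub' v (ge_mul_const v _ h1) (ge_mul_const v _ h2))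
    (ge_mul_const v _ h3)) (ge_mul_const v _ h4)

/-- `δ` of an element of `ge v t` -/
lemma ge_der {δ : Derivation k K K} {n : ℕ}
    (hδ : ∀ z : K, z ≠ 0 → ge v (v.ord z - 1 - n) (δ z)) {t : ℤ} {y : K} (hy : ge v t y) :
    ge v (t - 1 - n) (δ y) := by
  by_cases h0 : y = 0
  · left; rw [h0, map_zero]
  · refine ge_mono v ?_ (hδ y h0)
    have := ge_imp v hy h0
    omega

lemma ge_wr {δ : Derivation k K K} {x : Fin 2 → K} {s t : ℤ} (hx : ∀ i, ge v s (x i))
    (hd : ∀ i, ge v t (δ (x i))) : ge v (s + t) (wr δ x) := by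
  unfold wr
  exact ge_sub' v (ge_mul v (hx 0) (hd 1)) (ge_mul v (hx 1) (hd 0))

lemma aeval_lf (x : Fin 2 → K) (a : Fin 2 → k) :
    aeval x (lf a) = algebraMap k K (a 0) * x 0 + algebraMap k K (a 1) * x 1 := by
  unfold lf
  simp

theorem pf_LO (hZER : T_ZER) : T_LO := by
  intro k K _ _ _ v δ m d n a α γ x hPw hm hd hsol h1 h2 hx0 hx1 hz hz0 hzn
  have hx : ∀ i, ge v 0 (x i) := by
    intro i
    fin_cases i
    · exact Or.inr hx0
    · exact Or.inr hx1
  have h1' : ∀ y : K, ge v 0 y → ge v (-(n : ℤ)) (δ y) := fun y hy => h1 y (ge_nonneg v hy)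
  have hα : ge v 0 (aeval x α) := ge_aeval0 v x α hx
  have hγ : ge v 0 (aeval x γ) := ge_aeval0 v x γ hx
  have hdα : ge v (-(n : ℤ)) (δ (aeval x α)) := h1' _ hα
  have hdx : ∀ i, ge v (-(n : ℤ)) (δ (x i)) := fun i => h1' _ (hx i)
  by_cases hord : v.ord (aeval x (FF a)) = 0
  · -- the value of the form is a unit
    rw [hord]
    have hw : ge v (-(n : ℤ)) (wr δ x) := by
      have := ge_wr v hx hdx
      rwa [zero_add] at this
    have hw2 : ge v (2 * (-(n : ℤ))) (wr δ x ^ 2) := by
      have := ge_pow' v hw 2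
      push_cast at this
      exact this
    rcases Nat.eq_zero_or_pos n with hn | hn
    · subst hn
      have hw0 : ge v 0 (wr δ x) := ge_mono v (by simp) hw
      have hdw : ge v 0 (δ (wr δ x)) := ge_mono v (by simp) (h1' _ hw0)
      refine ge_RR v _ m d α γ δ x ?_ ?_ ?_ ?_
      · exact ge_mono v (by simp) (ge_mul v hα hdw)
      · exact ge_mono v (by simp) (ge_mul v hα hw0)
      · exact ge_mono v (by simp) (ge_mul v hdα hw0)
      · exact ge_mono v (by simp) (ge_mul v hγ hw2)
    · have hdw := ge_der v h2 hw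
      refine ge_RR v _ m d α γ δ x ?_ ?_ ?_ ?_
      · exact ge_mono v (by omega) (ge_mul v hα hdw)
      · exact ge_mono v (by omega) (ge_mul v hα hw)
      · exact ge_mono v (by omega) (ge_mul v hdα hw)
      · exact ge_mono v (by omega) (ge_mul v hγ hw2)
  have hzn' := hzn hord
  rw [hzn']
  rcases Nat.eq_zero_or_pos n with hn | hn
  · subst hn
    have := hZER k K v δ m d a α γ x hPw (by omega) hd hsol
      (fun z hz => ge_mono v (by simp) (h1 z hz)) hx0 hx1 hz (Or.inr (by rw [hzn']; simp))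
    exact ge_mono v (by simp) this
  by_cases hbad : ∀ i, ge v 1 (x i)
  · -- both coordinates vanish
    have hdx' : ∀ i, ge v (-(n : ℤ)) (δ (x i)) := hdx
    have hw : ge v (1 + -(n : ℤ)) (wr δ x) := ge_wr v hbad hdx'
    have hw2 : ge v (2 * (1 + -(n : ℤ))) (wr δ x ^ 2) := by
      have := ge_pow' v hw 2
      push_cast at this
      exact this
    have hdw := ge_der v h2 hw
    have hα1 : ge v d (aeval x α) := by
      have := ge_aeval v 1 d x α hsol.ha hbad
      rwa [mul_one] at this
    have hdα1 := ge_der v h2 hα1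
    have hd2 : (2 : ℤ) ≤ d := by exact_mod_cast hd
    refine ge_RR v _ m d α γ δ x ?_ ?_ ?_ ?_
    · exact ge_mono v (by omega) (ge_mul v hα1 hdw)
    · exact ge_mono v (by omega) (ge_mul v hα1 hw)
    · exact ge_mono v (by omega) (ge_mul v hdα1 hw)
    · exact ge_mono v (by omega) (ge_mul v hγ hw2)
  -- exactly one linear form vanishes
  have hl0 : ∀ i, ge v 0 (aeval x (lf (a i))) := fun i => ge_aeval0 v x _ hx
  have hprod : aeval x (FF a) = ∏ i, aeval x (lf (a i)) := by
    unfold FF
    rw [map_prod]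
  have hlne : ∀ i, aeval x (lf (a i)) ≠ 0 := by
    intro i h0
    apply hz0
    rw [hprod]
    exact Finset.prod_eq_zero (Finset.mem_univ i) h0
  have hsum : v.ord (aeval x (FF a)) = ∑ i, v.ord (aeval x (lf (a i))) := by
    rw [hprod, v.ord_prod _ _ fun i _ => hlne i]
  have huniq : ∀ i j, i ≠ j → ge v 1 (aeval x (lf (a i))) → ¬ ge v 1 (aeval x (lf (a j))) := by
    intro i j hij hi hj
    apply hbad
    have hdet := hPw i j hij
    rw [aeval_lf] at hi hj
    intro s
    fin_cases s
    · refine ge_of_cancel v _ hdet ?_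
      have e : algebraMap k K (a i 0 * a j 1 - a i 1 * a j 0) * x 0 =
          algebraMap k K (a j 1) * (algebraMap k K (a i 0) * x 0 + algebraMap k K (a i 1) * x 1) -
          algebraMap k K (a i 1) * (algebraMap k K (a j 0) * x 0 + algebraMap k K (a j 1) * x 1) := by
        simp only [map_sub, map_mul]
        ring
      show ge v 1 (algebraMap k K (a i 0 * a j 1 - a i 1 * a j 0) * x 0)
      rw [e]
      exact ge_sub' v (ge_mul_const v _ hi) (ge_mul_const v _ hj)
    · refine ge_of_cancel v _ hdet ?_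
      have e : algebraMap k K (a i 0 * a j 1 - a i 1 * a j 0) * x 1 =
          algebraMap k K (a i 0) * (algebraMap k K (a j 0) * x 0 + algebraMap k K (a j 1) * x 1) -
          algebraMap k K (a j 0) * (algebraMap k K (a i 0) * x 0 + algebraMap k K (a i 1) * x 1) := by
        simp only [map_sub, map_mul]
        ring
      show ge v 1 (algebraMap k K (a i 0 * a j 1 - a i 1 * a j 0) * x 1)
      rw [e]
      exact ge_sub' v (ge_mul_const v _ hj) (ge_mul_const v _ hi)
  obtain ⟨i, hi⟩ : ∃ i, v.ord (aeval x (lf (a i))) ≠ 0 := by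
    by_contra hcon
    push Not at hcon
    rw [Finset.sum_eq_zero fun i _ => hcon i] at hsum
    exact hord hsum
  have hi1 : ge v 1 (aeval x (lf (a i))) := by
    right
    have := ge_nonneg v (hl0 i)
    omega
  have hiord : v.ord (aeval x (lf (a i))) = n + 1 := by
    rw [hsum, Finset.sum_eq_single i] at hzn'
    · exact hzn'
    · intro j _ hj
      have h3 := huniq i j (Ne.symm hj) hi1
      have h4 := ge_nonneg v (hl0 j)
      by_contra h5
      exact h3 (Or.inr (by omega))
    · intro h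
      exact absurd (Finset.mem_univ i) h
  have hai : a i 0 ≠ 0 ∨ a i 1 ≠ 0 := by
    by_contra hcon
    push Not at hcon
    obtain ⟨j, hj⟩ : ∃ j : Fin m, i ≠ j := by
      by_cases h0 : i = ⟨0, by omega⟩
      · exact ⟨⟨1, by omega⟩, by rw [h0]; simp⟩
      · exact ⟨⟨0, by omega⟩, h0⟩
    apply hPw i j hj
    rw [hcon.1, hcon.2]
    ring
  have hdl : ge v 0 (δ (aeval x (lf (a i)))) := by
    have := h2 _ (hlne i)
    rw [hiord] at this
    exact ge_mono v (by omega) this
  have hl : ge v (n + 1) (aeval x (lf (a i))) := Or.inr (by rw [hiord])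
  have hδl : δ (aeval x (lf (a i))) = algebraMap k K (a i 0) * δ (x 0) +
      algebraMap k K (a i 1) * δ (x 1) := by
    rw [aeval_lf, map_add, Derivation.leibniz, Derivation.leibniz, Derivation.map_algebraMap,
      Derivation.map_algebraMap]
    simp
  have hw : ge v 0 (wr δ x) := by
    rcases hai with h0 | h0
    · refine ge_of_cancel v _ h0 ?_
      have e : algebraMap k K (a i 0) * wr δ x =
          δ (x 1) * aeval x (lf (a i)) - x 1 * δ (aeval x (lf (a i))) := by
        rw [hδl, aeval_lf]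
        unfold wr
        ring
      rw [e]
      refine ge_sub' v (ge_mono v ?_ (ge_mul v (hdx 1) hl)) (ge_mono v ?_ (ge_mul v (hx 1) hdl))
      · omega
      · omega
    · refine ge_of_cancel v _ h0 ?_
      have e : algebraMap k K (a i 1) * wr δ x =
          x 0 * δ (aeval x (lf (a i))) - δ (x 0) * aeval x (lf (a i)) := by
        rw [hδl, aeval_lf]
        unfold wr
        ring
      rw [e]
      refine ge_sub' v (ge_mono v ?_ (ge_mul v (hx 0) hdl)) (ge_mono v ?_ (ge_mul v (hdx 0) hl))
      · omega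
      · omega
  have hdw := h1' _ hw
  have hw2 : ge v (2 * 0) (wr δ x ^ 2) := by
    have := ge_pow' v hw 2
    push_cast at this
    exact this
  refine ge_RR v _ m d α γ δ x ?_ ?_ ?_ ?_
  · exact ge_mono v (by omega) (ge_mul v hα hdw)
  · exact ge_mono v (by omega) (ge_mul v hα hw)
  · exact ge_mono v (by omega) (ge_mul v hdα hw)
  · exact ge_mono v (by omega) (ge_mul v hγ hw2)

end Pool.Agent.H96.BF
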